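import Pool.Agent.Helper78.ME.Goals
import Pool.Agent.Helper75.OH.STEP

/-!
# Packet STEP of the campaign ME: one step on words and on numbers
-/

namespace Pool.Agent.Helper29.ME

open Pool.Agent.Helper65.LinSpace Pool.Agent.Helper78.Mpc Pool.Agent.Helper28.Ram Finset
open Pool.Agent.Helper65.OH (letW mv InBox co)
open Pool.Agent.Helper78.ME Pool.Agent.Helper11.Ram
open Pool.Agent.Helper75.OH (capN_long capN_Good length_letW eq01_codeO)

theorem lw_codeO (o : Option Bool) : Prm.lw (codeO o) = num (letW o) := by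
  rcases o with _ | _ | _ <;> rfl

theorem pl_mi (z : List Bool) (k : ℕ) :
    ((Prm.pl (num z) k : ℕ) : ℤ) - ((Prm.mi (num z) k : ℕ) : ℤ) = mv z k := by
  unfold Prm.pl Prm.mi mv
  rw [letN_num, letN_num, eq01_codeO, eq01_codeO]
  push_cast
  rfl

section

variable {D k : ℕ} {A : Heads D k} {eA eN eW c : ℕ} {w y : List Bool} {m : Prm} {C : Conf D}
  {v : ℕ} {mem : ℕ → ℕ}

theorem adN_eq (_hP : Par A eA eN eW c w y m) (hF : Fns A m) (hq : GoodC m C v mem) :
    m.adN v = if (A.addr C.q).length ≤ m.S then num (A.addr C.q) else 0 := by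
  unfold Prm.adN
  rw [hq.wq]
  have := hq.len
  exact capN_Good hF.addr (by omega)

theorem adr_eq (hP : Par A eA eN eW c w y m) (hF : Fns A m) (hq : GoodC m C v mem)
    (h : (A.addr C.q).length ≤ m.S) : m.adr v = bval (A.addr C.q) := by
  unfold Prm.adr
  rw [adN_eq hP hF hq, if_pos h, log_num, num_eq_bval]
  omega

theorem inpN_eq (hP : Par A eA eN eW c w y m) (hF : Fns A m) (hq : GoodC m C v mem)
    (z : List Bool) (h : (A.addr C.q).length ≤ m.S) :
    m.inpN v (num z) = num (A.inp w y C.q z) := by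
  unfold Prm.inpN Heads.inp
  rw [adr_eq hP hF hq h, hP.h_x, hP.h_y, letN_num, letN_num, lw_codeO, lw_codeO, hq.wq, sdN_num,
    catN_num, catN_num, catN_num]

theorem inp_len (hq : GoodC m C v mem) {z : List Bool} (h2 : z.length ≤ m.S) :
    (A.inp w y C.q z).length ≤ 3 * m.S + 5 := by
  unfold Heads.inp
  have := hq.len
  simp only [List.length_append, length_sd, length_letW]
  omega

theorem nu_eq (hP : Par A eA eN eW c w y m) (hF : Fns A m) (hq : GoodC m C v mem)
    {z : List Bool} (h2 : z.length ≤ m.S) (h : (A.addr C.q).length ≤ m.S) : m.nu v (num z) =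
      if (A.next (A.inp w y C.q z)).length ≤ m.S then
        num (A.next (A.inp w y C.q z)) else 0 := by
  unfold Prm.nu
  rw [inpN_eq hP hF hq z h]
  exact capN_Good hF.next (inp_len hq h2)

theorem nw_eq (hP : Par A eA eN eW c w y m) (hF : Fns A m) (hq : GoodC m C v mem)
    {z : List Bool} (h2 : z.length ≤ m.S) (h : (A.addr C.q).length ≤ m.S) : m.nw v (num z) =
      if (A.write (A.inp w y C.q z)).length ≤ m.S then
        num (A.write (A.inp w y C.q z)) else 0 := by
  unfold Prm.nw
  rw [inpN_eq hP hF hq z h]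
  exact capN_Good hF.write (inp_len hq h2)

theorem viol_iff (m : Prm) (v u : ℕ) : m.viol v u = 0 ↔ ∀ i < m.D,
    Prm.mi u i ≤ m.cq v (m.aj v) i + Prm.pl u i ∧
      m.cq v (m.aj v) i + Prm.pl u i - Prm.mi u i < 2 ^ m.κ := by
  unfold Prm.viol
  rw [Finset.sum_eq_zero_iff]
  constructor
  · intro h k hk
    have := h k (Finset.mem_range.2 hk)
    unfold le01 lt01 at this
    split_ifs at this with h1 h2
    · exact ⟨h1, h2⟩
  · intro h k hk
    obtain ⟨h1, h2⟩ := h k (Finset.mem_range.1 hk)
    unfold le01 lt01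
    rw [if_pos h1, if_pos h2]
    norm_num

theorem co_lt {κ : ℕ} {z : Fin D → ℤ} (hz : InBox κ z) (i : ℕ) : co κ z i < 2 ^ κ := by
  unfold co
  split_ifs with h
  · obtain ⟨h1, h2⟩ := hz ⟨i, h⟩
    have h3 : z ⟨i, h⟩ + 2 ^ (κ - 1) < ((2 ^ κ : ℕ) : ℤ) := by
      push_cast
      exact h2
    omega
  · positivity

theorem co_inj {κ : ℕ} {z z' : Fin D → ℤ} (hz : InBox κ z) (hz' : InBox κ z')
    (h : tab (2 ^ κ) D (co κ z) = tab (2 ^ κ) D (co κ z')) : z = z' := by
  funext i
  have h1 := dig_tab (fun i _ => co_lt hz i) i.2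
  have h2 := dig_tab (fun i _ => co_lt hz' i) i.2
  rw [h, h2] at h1
  unfold co at h1
  rw [dif_pos i.2, dif_pos i.2] at h1
  have h3 := (hz i).1
  have h4 := (hz' i).1
  have h5 : z' i + 2 ^ (κ - 1) = z i + 2 ^ (κ - 1) := by
    have h6 : (z' ⟨i, i.2⟩ + 2 ^ (κ - 1)).toNat = (z ⟨i, i.2⟩ + 2 ^ (κ - 1)).toNat := h1
    have h7 := congrArg (fun n : ℕ => (n : ℤ)) h6
    simp only [Fin.eta] at h7
    rwa [Int.toNat_of_nonneg h4, Int.toNat_of_nonneg h3] at h7
  linarith

theorem inBox_h (hD : DEC_stmt) (hq : GoodC m C v mem) {j : ℕ} (hj : j < m.k) :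
    InBox m.κ (C.h j) := by
  intro i
  have h1 := hq.cq j hj i
  have h2 := hD.cq_lt m v j i
  rw [← h1]
  exact ⟨by positivity, by exact_mod_cast h2⟩

theorem pos_eq (hP : Par A eA eN eW c w y m) (hq : GoodC m C v mem) {j : ℕ} (hj : j < m.k) :
    m.pos v j = tab (2 ^ m.κ) D (co m.κ (C.h j)) := by
  unfold Prm.pos
  rw [hP.h_D]
  refine tab_congr fun i hi => ?_
  have h1 := hq.cq j hj ⟨i, hi⟩
  unfold co
  rw [dif_pos hi, ← h1]
  rfl

theorem aj_eq (hA : ACT_stmt) (hP : Par A eA eN eW c w y m) (hq : GoodC m C v mem) :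
    m.aj v = act D k C.q := by
  unfold Prm.aj
  rw [hq.wq, hP.h_k, hP.h_D]
  exact hA.1 D k C.q

end

/-- Packet STEP. -/
theorem STEP (hD : DEC_stmt) (hM : MOV_stmt) (hA : ACT_stmt) : STEP_stmt := by
  intro D k A eA eN eW c w y m hP hF C v mem hq hacc
  have hacc0 : accN (m.wq v) = 0 := by
    rw [hq.wq]
    have h1 : accN (num C.q) ≠ 1 := fun h => hacc ((accN_num _).1 h)
    have h2 := accN_le (num C.q)
    omega
  have hk : 0 < m.k := by rw [hP.h_k]; exact hP.pos_k
  have haj := aj_eq hA hP hq
  have hajk : act D k C.q < m.k := by rw [hP.h_k]; exact hA.2 D k C.q hP.pos_k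
  have hbox := inBox_h hD hq hajk
  have hpos : m.pos v (m.aj v) = tab (2 ^ m.κ) D (co m.κ (C.h (act D k C.q))) := by
    rw [haj]
    exact pos_eq hP hq hajk
  obtain ⟨hlen, hmem⟩ := hq.mem _ hbox
  have hc : mem (m.pos v (m.aj v)) = num (C.M (C.h (act D k C.q))) := by
    rw [hpos]
    exact hmem
  rw [hc]
  generalize hz : C.M (C.h (act D k C.q)) = z at hlen hmem hc ⊢
  have hclt : num z < 2 ^ (m.S + 1) := by
    have h1 := capN_lt m.S (num z)
    rwa [capN_num hlen] at h1
  obtain ⟨-, -, -, hwq, hwl, hcq⟩ := hM m v (num z) hk hclt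
  rw [hacc0, ifz_zero] at hwq hwl
  have hstepq : (A.step w y C).q = A.next (A.inp w y C.q z) := by
    rw [← hz]; rfl
  have hsteph : (A.step w y C).h = Function.update C.h (act D k C.q) fun i =>
      C.h (act D k C.q) i + mv (A.next (A.inp w y C.q z)) i := by
    rw [← hz]; rfl
  have hstepM : (A.step w y C).M = Function.update C.M (C.h (act D k C.q))
      (A.write (A.inp w y C.q z)) := by
    rw [← hz]; rfl
  constructor
  · by_cases hok : m.ok v (num z) = 0
    · left
      refine ⟨hok, ?_⟩
      rw [hwq, hok, ifz_zero]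
    · right
      have hok' := hok
      unfold Prm.ok at hok'
      have h1 : m.adN v ≠ 0 := left_ne_zero_of_mul hok'
      have h2 := right_ne_zero_of_mul hok'
      have h4 := right_ne_zero_of_mul h2
      have h5 : m.nu v (num z) ≠ 0 := left_ne_zero_of_mul h4
      have h6 := right_ne_zero_of_mul h4
      have h7 : m.nw v (num z) ≠ 0 := left_ne_zero_of_mul h6
      have h8 := right_ne_zero_of_mul h6
      have hviol : m.viol v (m.nu v (num z)) = 0 := by
        by_contra hne
        exact h8 (if_neg hne)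
      have ha : (A.addr C.q).length ≤ m.S := by
        by_contra hcon
        exact h1 (by rw [adN_eq hP hF hq, if_neg hcon])
      have hN : (A.next (A.inp w y C.q z)).length ≤ m.S := by
        by_contra hcon
        exact h5 (by rw [nu_eq hP hF hq hlen ha, if_neg hcon])
      have hW : (A.write (A.inp w y C.q z)).length ≤ m.S := by
        by_contra hcon
        exact h7 (by rw [nw_eq hP hF hq hlen ha, if_neg hcon])
      have hnu : m.nu v (num z) = num (A.next (A.inp w y C.q z)) := by
        rw [nu_eq hP hF hq hlen ha, if_pos hN]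
      have hnw : m.nw v (num z) = num (A.write (A.inp w y C.q z)) := by
        rw [nw_eq hP hF hq hlen ha, if_pos hW]
      have hv' := (viol_iff m v (m.nu v (num z))).1 hviol
      rw [ifz_ne hok] at hwq hwl
      refine ⟨hok, ?_, ?_, ?_, ?_⟩
      · rw [hwq, hnu, hstepq]
      · rw [hstepq]
        exact hN
      · intro j hj i
        have hi : (i : ℕ) < m.D := by rw [hP.h_D]; exact i.2
        rw [hcq j hj i hi, hacc0, ifz_zero, ifz_ne hok, hsteph]
        by_cases hja : j = act D k C.q
        · rw [eq01_of (by rw [haj]; exact hja), ifz_ne one_ne_zero, hja, Function.update_self]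
          have h9 := (hv' i hi).1
          have h10 := hq.cq _ hajk i
          have h11 := pl_mi (A.next (A.inp w y C.q z)) i
          rw [← hnu] at h11
          rw [haj] at h9
          rw [← h11]
          push_cast [Nat.cast_sub h9]
          rw [h10]
          ring
        · rw [eq01_ne (by rw [haj]; exact hja), ifz_zero, Function.update_of_ne hja]
          exact hq.cq j hj i
      · intro z' hz'
        rw [hstepM, hwl, hnw, hpos]
        by_cases hzz : z' = C.h (act D k C.q)
        · subst hzz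
          rw [Function.update_self, Function.update_self]
          exact ⟨hW, rfl⟩
        · rw [Function.update_of_ne hzz, Function.update_of_ne]
          · exact hq.mem z' hz'
          · intro h
            exact hzz (co_inj hz' hbox h)
  · intro ha hN hW hbox'
    have hN' : (A.next (A.inp w y C.q z)).length ≤ m.S := by
      rw [hstepq] at hN
      exact hN
    have hW' : (A.write (A.inp w y C.q z)).length ≤ m.S := by
      have h1 := hW (C.h (act D k C.q))
      rw [hstepM, Function.update_self] at h1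
      exact h1
    have hnu : m.nu v (num z) = num (A.next (A.inp w y C.q z)) := by
      rw [nu_eq hP hF hq hlen ha, if_pos hN']
    have hviol : m.viol v (m.nu v (num z)) = 0 := by
      rw [viol_iff]
      intro i hi
      have hiD : i < D := by rw [← hP.h_D]; exact hi
      have h10 := hq.cq _ hajk ⟨i, hiD⟩
      have h11 := pl_mi (A.next (A.inp w y C.q z)) i
      rw [← hnu] at h11
      obtain ⟨hb1, hb2⟩ := hbox' (act D k C.q) (hP.h_k ▸ hajk) ⟨i, hiD⟩
      have e : (A.step w y C).h (act D k C.q) ⟨i, hiD⟩ =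
          C.h (act D k C.q) ⟨i, hiD⟩ + mv (A.next (A.inp w y C.q z)) i := by
        rw [hsteph, Function.update_self]
      rw [e, ← h11] at hb1 hb2
      have h10' : ((m.cq v (act D k C.q) i : ℕ) : ℤ) =
        C.h (act D k C.q) ⟨i, hiD⟩ + 2 ^ (m.κ - 1) := h10
      rw [haj]
      have h12 : (Prm.mi (m.nu v (num z)) i : ℤ) ≤
          (m.cq v (act D k C.q) i : ℤ) + (Prm.pl (m.nu v (num z)) i : ℤ) := by
        rw [h10']; linarith
      have h13 : Prm.mi (m.nu v (num z)) i ≤
          m.cq v (act D k C.q) i + Prm.pl (m.nu v (num z)) i := by exact_mod_cast h12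
      refine ⟨h13, ?_⟩
      have h14 : ((m.cq v (act D k C.q) i + Prm.pl (m.nu v (num z)) i -
          Prm.mi (m.nu v (num z)) i : ℕ) : ℤ) < ((2 ^ m.κ : ℕ) : ℤ) := by
        push_cast [Nat.cast_sub h13]
        rw [h10']
        linarith
      exact_mod_cast h14
    unfold Prm.ok
    rw [adN_eq hP hF hq, if_pos ha, hnu, nw_eq hP hF hq hlen ha, if_pos hW',
      ← hnu, hviol, eq01_of rfl, hnu]
    have p1 := num_pos (A.addr C.q)
    have p2 := num_pos z
    have p3 := num_pos (A.next (A.inp w y C.q z))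
    have p4 := num_pos (A.write (A.inp w y C.q z))
    positivity

end Pool.Agent.Helper29.ME
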